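import Pool.Agent.Helper37.Fc.StabF

/-!
# Project FCH (MP_6cbef8_nt), module FinDet: a finite set determines functions with few translates

PLAN. Let `A` be as in `exists_reps`, `B = A.card ^ m`. The set of open subgroups of index `≤ B` is finite, so their intersection `N` is open
(`Set.Finite.isOpen_sInter`, or `isOpen_biInter_finite`). For every `g` the open set `g N` (`{x | g⁻¹ * x ∈ N}`, nonempty) meets `D`; the compact group `G` is covered by
finitely many of the cosets `x N`: choose by compactness finitely many `g_i`, and `R = {r_i}`, `r_i ∈ D ∩ g_i N`; so for every `g` there is `r ∈ R` with `g⁻¹ * r ∈ N`.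
(Or: `N` has finite index, `Subgroup.quotient_finite_of_isOpen`, and take one `r` in each class.) Now let `f ≠ 0`; by compactness `‖f g₀‖ = ‖f‖` for some `g₀`
(`IsCompact.exists_isMaxOn` or `ContinuousMap.exists_norm_eq_norm_apply`; `G` is nonempty); replace `f` by `f' = (f g₀)⁻¹ • f`, which satisfies `‖f'‖ = 1`, `f' g₀ = 1`, `rt h f' ∈ S`, vanishes on `R`.
By `exists_stab` (`1 ≤ A.card`, so `A.card ^ finrank ≤ B`) `H` is one of the subgroups, so `N ≤ H`; `r ∈ R` with `g₀⁻¹ * r ∈ N`: `‖f' (g₀ * (g₀⁻¹ * r)) - f' g₀‖ < 1`, i.e. `‖0 - 1‖ < 1`, a contradiction.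
-/

set_option autoImplicit false

namespace Pool.Agent.Helper37.Fc

section

variable {G : Type*} [Group G] [TopologicalSpace G] [IsTopologicalGroup G] [CompactSpace G]

/-- representatives of an open subgroup in a dense set -/
private theorem findet_reps {D : Set G} (hD : Dense D) {N : Subgroup G} (hN : IsOpen (N : Set G)) :
    ∃ R : Set G, R ⊆ D ∧ R.Finite ∧ ∀ g, ∃ r ∈ R, g⁻¹ * r ∈ N := by
  have hfin : Finite (G ⧸ N) := Subgroup.quotient_finite_of_isOpen N hN
  have h1 : ∀ q : G ⧸ N, ∃ r ∈ D, q.out⁻¹ * r ∈ N := by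
    intro q
    have ho : IsOpen {x : G | q.out⁻¹ * x ∈ N} := hN.preimage (continuous_const_mul _)
    obtain ⟨r, hr, hrD⟩ := hD.inter_open_nonempty _ ho ⟨q.out, by simp [N.one_mem]⟩
    exact ⟨r, hrD, hr⟩
  choose r hrD hrN using h1
  refine ⟨Set.range r, ?_, Set.finite_range r, ?_⟩
  · rintro _ ⟨q, rfl⟩
    exact hrD q
  · intro g
    refine ⟨r (g : G ⧸ N), ⟨_, rfl⟩, ?_⟩
    have h2 : g⁻¹ * ((g : G ⧸ N)).out ∈ N := by
      rw [← QuotientGroup.eq, QuotientGroup.out_eq']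
    have h3 := N.mul_mem h2 (hrN (g : G ⧸ N))
    have e : g⁻¹ * ((g : G ⧸ N)).out * (((g : G ⧸ N)).out⁻¹ * r (g : G ⧸ N)) =
        g⁻¹ * r (g : G ⧸ N) := by group
    rwa [e] at h3

end

variable {E : Type*} [NontriviallyNormedField E] [IsUltrametricDist E] [ProperSpace E]
  {G : Type*} [Group G] [TopologicalSpace G] [IsTopologicalGroup G] [CompactSpace G]

variable (E) in
theorem finite_determination (hfin : ∀ m : ℕ, {U : Subgroup G | IsOpen (U : Set G) ∧ U.index ≤ m}.Finite)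
    {D : Set G} (hD : Dense D) (m : ℕ) :
    ∃ R : Set G, R ⊆ D ∧ R.Finite ∧ ∀ (f : C(G, E)) (S : Submodule E C(G, E)),
      FiniteDimensional E S → Module.finrank E S ≤ m → (∀ h, rt h f ∈ S) →
      (∀ r ∈ R, f r = 0) → f = 0 := by
  obtain ⟨A, hA1, hA⟩ := exists_reps E
  have hAcard : 1 ≤ A.card := by
    obtain ⟨a, ha, _⟩ := hA 0 (by simp)
    exact Finset.card_pos.mpr ⟨a, ha⟩
  set 𝒰 := {U : Subgroup G | IsOpen (U : Set G) ∧ U.index ≤ A.card ^ m} with h𝒰
  have hNo : IsOpen ((sInf 𝒰 : Subgroup G) : Set G) := by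
    rw [Subgroup.coe_sInf]
    exact (hfin _).isOpen_biInter fun U hU => hU.1
  obtain ⟨R, hRD, hRf, hR⟩ := findet_reps hD hNo
  refine ⟨R, hRD, hRf, fun f S hS hfr hSf hr => ?_⟩
  by_contra hf0
  obtain ⟨g₀, -, hg₀⟩ := isCompact_univ.exists_isMaxOn (Set.univ_nonempty (α := G))
    (f.continuous.norm.continuousOn)
  have hmax : ∀ g, ‖f g‖ ≤ ‖f g₀‖ := fun g => hg₀ (Set.mem_univ g)
  have hne : f g₀ ≠ 0 := by
    intro h0
    apply hf0
    ext g
    have := hmax g
    rw [h0, norm_zero] at this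
    exact norm_le_zero_iff.mp this
  set f' : C(G, E) := (f g₀)⁻¹ • f with hf'
  have hf'v : ∀ g, f' g = (f g₀)⁻¹ * f g := fun g => rfl
  have hf'n : ‖f'‖ ≤ 1 := by
    rw [ContinuousMap.norm_le _ zero_le_one]
    intro g
    rw [hf'v, norm_mul, norm_inv]
    rw [inv_mul_le_iff₀ (norm_pos_iff.mpr hne), mul_one]
    exact hmax g
  obtain ⟨H, hHo, hHi, hH⟩ := exists_stab A hA f' hf'n S (fun h => by
    have e : rt h f' = (f g₀)⁻¹ • rt h f := rfl
    rw [e]
    exact S.smul_mem _ (hSf h))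
  have hHU : H ∈ 𝒰 := ⟨hHo, hHi.trans (Nat.pow_le_pow_right hAcard hfr)⟩
  obtain ⟨r, hrR, hrN⟩ := hR g₀
  have h1 := hH _ (sInf_le hHU hrN) g₀
  rw [mul_inv_cancel_left, hf'v, hf'v, hr r hrR, mul_zero, inv_mul_cancel₀ hne, zero_sub, norm_neg,
    norm_one] at h1
  exact lt_irrefl _ h1

end Pool.Agent.Helper37.Fc
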