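import Mathlib

/-!
# Project FCH (MP_6cbef8_nt), module Frame: residue representatives and frames of ultrametric spaces
-/

set_option autoImplicit false

namespace Pool.Agent.Helper37.Fc

variable (E : Type*) [NontriviallyNormedField E] [IsUltrametricDist E]

theorem exists_reps [ProperSpace E] :
    ∃ A : Finset E, (∀ a ∈ A, ‖a‖ ≤ 1) ∧ ∀ x : E, ‖x‖ ≤ 1 → ∃ a ∈ A, ‖x - a‖ < 1 := by
  have hc : IsCompact (Metric.closedBall (0 : E) 1) := isCompact_closedBall 0 1
  obtain ⟨t, hts, htf, hcov⟩ := finite_cover_balls_of_compact hc one_pos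
  refine ⟨htf.toFinset, ?_, ?_⟩
  · intro a ha
    have h1 := hts ((Set.Finite.mem_toFinset htf).1 ha)
    rwa [mem_closedBall_zero_iff] at h1
  · intro x hx
    have h1 : x ∈ Metric.closedBall (0 : E) 1 := by
      rwa [mem_closedBall_zero_iff]
    have h2 := hcov h1
    rw [Set.mem_iUnion₂] at h2
    obtain ⟨a, ha, hxa⟩ := h2
    refine ⟨a, (Set.Finite.mem_toFinset htf).2 ha, ?_⟩
    rwa [Metric.mem_ball, dist_eq_norm] at hxa

variable {E}

private theorem frame_sum_lt {W : Type*} [NormedAddCommGroup W] [IsUltrametricDist W] {ι : Type*}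
    (s : Finset ι) (f : ι → W) (h : ∀ i ∈ s, ‖f i‖ < 1) : ‖∑ i ∈ s, f i‖ < 1 := by
  classical
  induction s using Finset.induction_on with
  | empty => simp
  | insert a s ha ih =>
    rw [Finset.sum_insert ha]
    refine lt_of_le_of_lt (IsUltrametricDist.norm_add_le_max _ _) (max_lt ?_ ?_)
    · exact h a (Finset.mem_insert_self _ _)
    · exact ih fun i hi => h i (Finset.mem_insert_of_mem hi)

/-- residually independent families -/
private def FrameRI {W : Type*} [NormedAddCommGroup W] [NormedSpace E W] (S : Submodule E W)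
    (k : ℕ) (v : Fin k → W) : Prop :=
  (∀ i, v i ∈ S) ∧ (∀ i, ‖v i‖ ≤ 1) ∧
    ∀ a : Fin k → E, (∀ i, ‖a i‖ ≤ 1) → ‖∑ i, a i • v i‖ < 1 → ∀ i, ‖a i‖ < 1

omit [IsUltrametricDist E] in
private theorem frame_le {W : Type*} [NormedAddCommGroup W] [NormedSpace E W]
    (S : Submodule E W) [FiniteDimensional E S] {k : ℕ} {v : Fin k → W} (h : FrameRI S k v) :
    k ≤ Module.finrank E S := by
  obtain ⟨h1, h2, h3⟩ := h
  have hli : LinearIndependent E (fun i => (⟨v i, h1 i⟩ : S)) := by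
    rw [Fintype.linearIndependent_iff]
    intro g hg
    by_contra hne
    push Not at hne
    obtain ⟨i1, hi1⟩ := hne
    obtain ⟨i0, -, hmax⟩ := Finset.exists_max_image Finset.univ (fun i => ‖g i‖)
      ⟨i1, Finset.mem_univ _⟩
    have hg0 : g i0 ≠ 0 := by
      intro h0
      have h4 := hmax i1 (Finset.mem_univ _)
      rw [h0, norm_zero] at h4
      exact hi1 (norm_le_zero_iff.1 h4)
    have hgn : 0 < ‖g i0‖ := norm_pos_iff.2 hg0
    have hsum : ∑ i, g i • v i = 0 := by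
      have h4 := congrArg (fun x : S => (x : W)) hg
      simp only [Submodule.coe_sum, Submodule.coe_smul, Submodule.coe_zero] at h4
      exact h4
    have h5 := h3 (fun i => (g i0)⁻¹ * g i) (by
      intro i
      rw [norm_mul, norm_inv, inv_mul_le_iff₀ hgn, mul_one]
      exact hmax i (Finset.mem_univ _)) (by
      have h6 : ∑ i, ((g i0)⁻¹ * g i) • v i = (g i0)⁻¹ • ∑ i, g i • v i := by
        rw [Finset.smul_sum]
        exact Finset.sum_congr rfl fun i _ => mul_smul _ _ _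
      rw [h6, hsum, smul_zero, norm_zero]
      exact one_pos) i0
    rw [inv_mul_cancel₀ hg0, norm_one] at h5
    exact lt_irrefl _ h5
  have h4 := hli.fintype_card_le_finrank
  rwa [Fintype.card_fin] at h4

theorem exists_frame {W : Type*} [NormedAddCommGroup W] [NormedSpace E W] [IsUltrametricDist W]
    (S : Submodule E W) [FiniteDimensional E S] (A : Finset E)
    (hA : ∀ x : E, ‖x‖ ≤ 1 → ∃ a ∈ A, ‖x - a‖ < 1) :
    ∃ (k : ℕ) (v : Fin k → W), k ≤ Module.finrank E S ∧
      ∀ w ∈ S, ‖w‖ ≤ 1 → ∃ a : Fin k → A, ‖w - ∑ i, (a i : E) • v i‖ < 1 := by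
  classical
  let P : ℕ → Prop := fun k => ∃ v : Fin k → W, FrameRI S k v
  have hP0 : P 0 := ⟨fun i => i.elim0, fun i => i.elim0, fun i => i.elim0, fun _ _ _ i => i.elim0⟩
  obtain ⟨k, hk⟩ : ∃ k, k = Nat.findGreatest P (Module.finrank E S) := ⟨_, rfl⟩
  obtain ⟨v, hv⟩ : P k := by
    rw [hk]
    exact Nat.findGreatest_spec (Nat.zero_le _) hP0
  have hmax : ¬ P (k + 1) := by
    rintro ⟨u, hu⟩
    have h1 := frame_le S hu
    have h2 : k + 1 ≤ Nat.findGreatest P (Module.finrank E S) :=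
      Nat.le_findGreatest h1 ⟨u, hu⟩
    omega
  refine ⟨k, v, frame_le S hv, ?_⟩
  intro w hw hw1
  obtain ⟨h1, h2, h3⟩ := hv
  have hno : ¬ FrameRI S (k + 1) (Fin.snoc v w : Fin (k + 1) → W) := fun h => hmax ⟨_, h⟩
  have hS : ∀ i, (Fin.snoc v w : Fin (k + 1) → W) i ∈ S := by
    intro i
    refine Fin.lastCases ?_ (fun j => ?_) i
    · rw [Fin.snoc_last]
      exact hw
    · rw [Fin.snoc_castSucc]
      exact h1 j
  have hN : ∀ i, ‖(Fin.snoc v w : Fin (k + 1) → W) i‖ ≤ 1 := by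
    intro i
    refine Fin.lastCases ?_ (fun j => ?_) i
    · rw [Fin.snoc_last]
      exact hw1
    · rw [Fin.snoc_castSucc]
      exact h2 j
  have hex : ∃ a : Fin (k + 1) → E, (∀ i, ‖a i‖ ≤ 1) ∧
      ‖∑ i, a i • (Fin.snoc v w : Fin (k + 1) → W) i‖ < 1 ∧ ∃ i, ¬ ‖a i‖ < 1 := by
    by_contra hcon
    apply hno
    refine ⟨hS, hN, fun a ha hs => ?_⟩
    by_contra hne
    push Not at hne
    obtain ⟨i, hi⟩ := hne
    exact hcon ⟨a, ha, hs, i, not_lt.2 hi⟩
  obtain ⟨a, ha, hs, i, hi⟩ := hex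
  rw [Fin.sum_univ_castSucc] at hs
  simp only [Fin.snoc_castSucc, Fin.snoc_last] at hs
  set b := a (Fin.last k) with hb
  by_cases hb1 : ‖b‖ < 1
  · exfalso
    have hbw : ‖b • w‖ < 1 := by
      rw [norm_smul]
      calc ‖b‖ * ‖w‖ ≤ ‖b‖ * 1 := mul_le_mul_of_nonneg_left hw1 (norm_nonneg _)
        _ < 1 := by rw [mul_one]; exact hb1
    have hs2 : ‖∑ i : Fin k, a i.castSucc • v i‖ < 1 := by
      have e1 : ∑ i : Fin k, a i.castSucc • v i =
          (∑ i : Fin k, a i.castSucc • v i + b • w) + -(b • w) := by abel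
      rw [e1]
      refine lt_of_le_of_lt (IsUltrametricDist.norm_add_le_max _ _) (max_lt hs ?_)
      rw [norm_neg]
      exact hbw
    have h4 := h3 (fun i => a i.castSucc) (fun i => ha _) hs2
    apply hi
    refine Fin.lastCases ?_ (fun j => ?_) i
    · exact hb1
    · exact h4 j
  · have hbn : ‖b‖ = 1 := le_antisymm (ha _) (not_lt.1 hb1)
    have hb0 : b ≠ 0 := by
      intro h0
      rw [h0, norm_zero] at hbn
      exact zero_ne_one hbn
    have hc1 : ∀ i : Fin k, ‖-(b⁻¹ * a i.castSucc)‖ ≤ 1 := by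
      intro i
      rw [norm_neg, norm_mul, norm_inv, hbn, inv_one, one_mul]
      exact ha _
    choose α hα hαc using fun i : Fin k => hA _ (hc1 i)
    refine ⟨fun i => ⟨α i, hα i⟩, ?_⟩
    have e1 : w - ∑ i : Fin k, α i • v i =
        b⁻¹ • (∑ i : Fin k, a i.castSucc • v i + b • w) +
          ∑ i : Fin k, (-(b⁻¹ * a i.castSucc) - α i) • v i := by
      rw [smul_add, smul_smul, inv_mul_cancel₀ hb0, one_smul, Finset.smul_sum]
      have e2 : ∑ i : Fin k, (-(b⁻¹ * a i.castSucc) - α i) • v i =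
          -(∑ i : Fin k, b⁻¹ • a i.castSucc • v i) - ∑ i : Fin k, α i • v i := by
        rw [← Finset.sum_neg_distrib, ← Finset.sum_sub_distrib]
        refine Finset.sum_congr rfl fun i _ => ?_
        rw [sub_smul, neg_smul, mul_smul]
      rw [e2]
      abel
    show ‖w - ∑ i : Fin k, α i • v i‖ < 1
    rw [e1]
    refine lt_of_le_of_lt (IsUltrametricDist.norm_add_le_max _ _) (max_lt ?_ ?_)
    · rw [norm_smul, norm_inv, hbn, inv_one, one_mul]
      exact hs
    · apply frame_sum_lt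
      intro i _
      rw [norm_smul]
      calc ‖-(b⁻¹ * a i.castSucc) - α i‖ * ‖v i‖ ≤ ‖-(b⁻¹ * a i.castSucc) - α i‖ * 1 :=
            mul_le_mul_of_nonneg_left (h2 i) (norm_nonneg _)
        _ < 1 := by rw [mul_one]; exact hαc i

end Pool.Agent.Helper37.Fc
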