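import Pool.Agent.Helper37.Af.Defs

/-!
# Project FCH (MP_6cbef8_nt), module Nontriv: from one point to a set of positive measure

PLAN. Suppose `P(V g, T g) = 0` for all `g` and `P(x₀, T g₀) ≠ 0`, `det x₀ = det V g₀`. For `g` put `x g = V g * (V g₀)⁻¹ * x₀`, of determinant `det V g`. The function
`g ↦ eval (ent (x g) (T · g)) P` is continuous (`MvPolynomial.continuous_eval`, entries of products are polynomial) and nonzero at `g₀`, so
nonzero on an open neighbourhood of `g₀`, which is contained in the set in question; open nonempty sets have positive Haar measure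
(`IsOpen.measure_ne_zero`, `MeasureTheory.measure_mono_null`).
-/

set_option autoImplicit false

namespace Pool.Agent.Helper37.Fc

open Pool.Agent.Helper37.Af Matrix MeasureTheory

variable {E : Type*} [NontriviallyNormedField E]
  {G : Type*} [Group G] [TopologicalSpace G] [IsTopologicalGroup G] [MeasurableSpace G]
  [BorelSpace G] {J : Type*} {n : J → ℕ}

theorem related_of_vanish (μ : Measure G) [μ.IsHaarMeasure] {V : G →* GL (Fin 2) E}
    {T : ∀ j, G →* GL (Fin (n j)) E} (hV : Continuous V) (hT : ∀ j, Continuous (T j))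
    (P : MvPolynomial ((Fin 2 × Fin 2) ⊕ (Σ j : J, Fin (n j) × Fin (n j))) E)
    (h0 : ∀ g, MvPolynomial.eval (ent (V g) (fun j => T j g)) P = 0)
    (hne : ∃ g, ∃ x : Matrix (Fin 2) (Fin 2) E, x.det = (V g : Matrix (Fin 2) (Fin 2) E).det ∧
      MvPolynomial.eval (ent x (fun j => T j g)) P ≠ 0) : PolynomiallyRelated μ V T := by
  obtain ⟨g₀, x₀, hdet, hP⟩ := hne
  let x : G → Matrix (Fin 2) (Fin 2) E := fun g =>
    (V g : Matrix (Fin 2) (Fin 2) E) * ((V g₀)⁻¹ : GL (Fin 2) E) * x₀
  have hVc : Continuous fun g => (V g : Matrix (Fin 2) (Fin 2) E) := Units.continuous_val.comp hV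
  have hxc : Continuous x := (hVc.matrix_mul continuous_const).matrix_mul continuous_const
  have hc : Continuous fun g => MvPolynomial.eval (ent (x g) (fun j => T j g)) P := by
    refine (MvPolynomial.continuous_eval P).comp ?_
    refine continuous_pi fun v => ?_
    rcases v with ⟨a, b⟩ | ⟨j, a, b⟩
    · exact (continuous_apply_apply a b).comp hxc
    · have h1 : Continuous fun g => (T j g : Matrix (Fin (n j)) (Fin (n j)) E) :=
        Units.continuous_val.comp (hT j)
      exact (continuous_apply_apply a b).comp h1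
  have hinv : ∀ g, ((V g : GL (Fin 2) E) : Matrix (Fin 2) (Fin 2) E).det ≠ 0 := fun g =>
    (Matrix.isUnits_det_units (V g)).ne_zero
  have hx0 : x g₀ = x₀ := by
    change (V g₀ : Matrix (Fin 2) (Fin 2) E) * ((V g₀)⁻¹ : GL (Fin 2) E) * x₀ = x₀
    rw [← Units.val_mul, mul_inv_cancel, Units.val_one, one_mul]
  have hdetx : ∀ g, (x g).det = (V g : Matrix (Fin 2) (Fin 2) E).det := by
    intro g
    have h1 : (V g₀ : Matrix (Fin 2) (Fin 2) E).det *
        (((V g₀)⁻¹ : GL (Fin 2) E) : Matrix (Fin 2) (Fin 2) E).det = 1 := by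
      rw [← Matrix.det_mul, ← Units.val_mul, mul_inv_cancel, Units.val_one, Matrix.det_one]
    change ((V g : Matrix (Fin 2) (Fin 2) E) * ((V g₀)⁻¹ : GL (Fin 2) E) * x₀).det = _
    rw [Matrix.det_mul, Matrix.det_mul, hdet]
    linear_combination (V g : Matrix (Fin 2) (Fin 2) E).det * h1
  refine ⟨P, ?_⟩
  have hopen : IsOpen {g | MvPolynomial.eval (ent (x g) (fun j => T j g)) P ≠ 0} :=
    isOpen_ne_fun hc continuous_const
  have hpos : μ {g | MvPolynomial.eval (ent (x g) (fun j => T j g)) P ≠ 0} ≠ 0 := by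
    refine hopen.measure_ne_zero μ ⟨g₀, ?_⟩
    change MvPolynomial.eval (ent (x g₀) (fun j => T j g₀)) P ≠ 0
    rw [hx0]
    exact hP
  intro hzero
  apply hpos
  refine measure_mono_null ?_ hzero
  intro g hg
  exact ⟨h0 g, x g, hdetx g, hg⟩

end Pool.Agent.Helper37.Fc
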