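import Pool.Agent.Helper37.Fc.Frame

/-!
# Project FCH (MP_6cbef8_nt), module StabF: the stabiliser of the reduction of a function

PLAN. `C(G, E)` is an ultrametric normed space (instance `ContinuousMap.isUltrametricDist`), `G` compact, norm = sup norm. `rt h` is linear, `‖rt h f‖ = ‖f‖`
(`ContinuousMap.norm_le`, substitute `g * h`, `g * h⁻¹`), `rt h (rt h' f) = rt (h * h') f`: `(rt h (rt h' f)) g = (rt h' f) (g * h) = f (g * h * h')`.
`H = {h | ‖rt h f - f‖ < 1}` is a subgroup: `rt (h * h') f - f = rt h (rt h' f - f) + (rt h f - f)`, `rt h⁻¹ f - f = - rt h⁻¹ (rt h f - f)`. It is open: `h ↦ rt h f` is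
continuous into `C(G, E)` (`ContinuousMap.curry` of `(h, g) ↦ f (g * h)`). Index: with `(k, v)` from `exists_frame` choose for every `h` some `α h : Fin k → A` with
`‖rt h f - ∑ α i • v i‖ < 1` (`‖rt h f‖ = ‖f‖ ≤ 1`). If `α h = α h'` then `‖rt h f - rt h' f‖ < 1`, so `‖rt (h'⁻¹ * h) f - f‖ < 1`, i.e. `h'⁻¹ * h ∈ H`; so
`G ⧸ H → (Fin k → A)` is injective (on representatives `Quotient.out`) and `H.index = Nat.card (G ⧸ H) ≤ A.card ^ k ≤ A.card ^ finrank`
(`1 ≤ A.card` since `A` is nonempty: `hA 0`).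
-/

set_option autoImplicit false

namespace Pool.Agent.Helper37.Fc

variable {E : Type*} [NontriviallyNormedField E] [IsUltrametricDist E]
  {G : Type*} [Group G] [TopologicalSpace G] [IsTopologicalGroup G] [CompactSpace G]

/-- right translation -/
def rt (h : G) (f : C(G, E)) : C(G, E) :=
  ⟨fun g => f (g * h), f.continuous.comp (continuous_mul_const h)⟩

private theorem rt_apply (h : G) (f : C(G, E)) (g : G) : rt h f g = f (g * h) := rfl

private theorem norm_rt_le (h : G) (f : C(G, E)) : ‖rt h f‖ ≤ ‖f‖ := by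
  rw [ContinuousMap.norm_le _ (norm_nonneg _)]
  intro g
  exact f.norm_coe_le_norm (g * h)

private theorem rt_sub (h : G) (f f' : C(G, E)) : rt h (f - f') = rt h f - rt h f' := rfl

private theorem rt_rt (h h' : G) (f : C(G, E)) : rt h (rt h' f) = rt (h * h') f := by
  ext g
  simp only [rt_apply, mul_assoc]

private theorem rt_one (f : C(G, E)) : rt 1 f = f := by
  ext g
  simp only [rt_apply, mul_one]

private theorem add_lt {a b : C(G, E)} (ha : ‖a‖ < 1) (hb : ‖b‖ < 1) : ‖a + b‖ < 1 :=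
  lt_of_le_of_lt (IsUltrametricDist.norm_add_le_max a b) (max_lt ha hb)

private theorem cont_rt (f : C(G, E)) : Continuous fun h : G => rt h f := by
  have h1 : Continuous (fun p : G × G => f (p.2 * p.1)) :=
    f.continuous.comp (continuous_snd.mul continuous_fst)
  exact (ContinuousMap.curry ⟨_, h1⟩).continuous

theorem exists_stab (A : Finset E) (hA : ∀ x : E, ‖x‖ ≤ 1 → ∃ a ∈ A, ‖x - a‖ < 1) (f : C(G, E))
    (hf : ‖f‖ ≤ 1) (S : Submodule E C(G, E)) [FiniteDimensional E S] (hS : ∀ h, rt h f ∈ S) :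
    ∃ H : Subgroup G, IsOpen (H : Set G) ∧ H.index ≤ A.card ^ Module.finrank E S ∧
      ∀ h ∈ H, ∀ g, ‖f (g * h) - f g‖ < 1 := by
  obtain ⟨k, v, hk, hv⟩ := exists_frame S A hA
  have hAne : 1 ≤ A.card := by
    obtain ⟨a, ha, -⟩ := hA 0 (by simp)
    exact Finset.card_pos.mpr ⟨a, ha⟩
  have hmul : ∀ a b : G, ‖rt a f - f‖ < 1 → ‖rt b f - f‖ < 1 → ‖rt (a * b) f - f‖ < 1 := by
    intro a b ha hb
    have e : rt (a * b) f - f = rt a (rt b f - f) + (rt a f - f) := by
      rw [rt_sub, rt_rt]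
      abel
    rw [e]
    exact add_lt (lt_of_le_of_lt (norm_rt_le _ _) hb) ha
  have hinv : ∀ a : G, ‖rt a f - f‖ < 1 → ‖rt a⁻¹ f - f‖ < 1 := by
    intro a ha
    have e : rt a⁻¹ f - f = - rt a⁻¹ (rt a f - f) := by
      rw [rt_sub, rt_rt, inv_mul_cancel, rt_one]
      abel
    rw [e, norm_neg]
    exact lt_of_le_of_lt (norm_rt_le _ _) ha
  let H : Subgroup G :=
    { carrier := {h | ‖rt h f - f‖ < 1}
      mul_mem' := fun {a b} ha hb => hmul a b ha hb
      one_mem' := by
        show ‖rt 1 f - f‖ < 1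
        rw [rt_one, sub_self, norm_zero]
        exact one_pos
      inv_mem' := fun {a} ha => hinv a ha }
  have hH : ∀ h, h ∈ H ↔ ‖rt h f - f‖ < 1 := fun h => Iff.rfl
  refine ⟨H, ?_, ?_, ?_⟩
  · have h2 : IsOpen {h : G | ‖rt h f - f‖ < 1} :=
      isOpen_lt ((cont_rt f).sub continuous_const).norm continuous_const
    exact h2
  · have hch : ∀ h : G, ∃ a : Fin k → A, ‖rt h f - ∑ i, (a i : E) • v i‖ < 1 := fun h =>
      hv (rt h f) (hS h) ((norm_rt_le h f).trans hf)
    choose α hα using hch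
    have hinj : Function.Injective (fun q : G ⧸ H => α q.out) := by
      intro q q' hqq
      have hqq' : α q.out = α q'.out := hqq
      have h1 := hα q.out
      have h2 := hα q'.out
      rw [hqq'] at h1
      have h3 : ‖rt q.out f - rt q'.out f‖ < 1 := by
        have e : rt q.out f - rt q'.out f = (rt q.out f - ∑ i, (α q'.out i : E) • v i)
            + (-(rt q'.out f - ∑ i, (α q'.out i : E) • v i)) := by abel
        rw [e]
        refine add_lt h1 ?_
        rw [norm_neg]
        exact h2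
      have h4 : ‖rt (q'.out⁻¹ * q.out) f - f‖ < 1 := by
        have e : rt (q'.out⁻¹ * q.out) f - f = rt q'.out⁻¹ (rt q.out f - rt q'.out f) := by
          rw [rt_sub, rt_rt, rt_rt, inv_mul_cancel, rt_one]
        rw [e]
        exact lt_of_le_of_lt (norm_rt_le _ _) h3
      have h5 : (QuotientGroup.mk q'.out : G ⧸ H) = QuotientGroup.mk q.out :=
        QuotientGroup.eq.mpr ((hH _).mpr h4)
      rw [QuotientGroup.out_eq', QuotientGroup.out_eq'] at h5
      exact h5.symm
    have h6 : Nat.card (G ⧸ H) ≤ Nat.card (Fin k → A) :=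
      Nat.card_le_card_of_injective _ hinj
    have h7 : Nat.card (Fin k → A) = A.card ^ k := by
      simp [Nat.card_eq_fintype_card]
    calc H.index = Nat.card (G ⧸ H) := rfl
      _ ≤ A.card ^ k := by rw [← h7]; exact h6
      _ ≤ A.card ^ Module.finrank E S := Nat.pow_le_pow_right hAne hk
  · intro h hh g
    have h1 : ‖(rt h f - f) g‖ ≤ ‖rt h f - f‖ := (rt h f - f).norm_coe_le_norm g
    exact lt_of_le_of_lt h1 ((hH h).mp hh)

end Pool.Agent.Helper37.Fc
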